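import Mathlib
import Pool.Agent.Lib.helper23.Eke

set_option autoImplicit false

namespace Pool.Agent.Results.MP_7e7193_an.Main

open Pool.Agent.Lib.helper23.Eke

universe u

section
variable {X : Type u} [NormedAddCommGroup X] [NormedSpace ℝ X]

theorem pen_convex {Y : Type u} [NormedAddCommGroup Y] [NormedSpace ℝ Y] (L : Y →ₗ[ℝ] X) (y : X)
    {M : ℝ} (hM : 0 ≤ M) :
    ConvexOn ℝ Set.univ fun p : Y => M * (max (‖y + L p‖ - 1) 0 - max (‖y‖ - 1) 0) := by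
  refine ⟨convex_univ, fun p _ q _ a b ha hb hab => ?_⟩
  have e : y + L (a • p + b • q) = a • (y + L p) + b • (y + L q) := by
    rw [map_add, map_smul, map_smul, smul_add, smul_add, add_add_add_comm, ← add_smul, hab,
      one_smul]
  have h1 := norm_add_le (a • (y + L p)) (b • (y + L q))
  rw [← e, norm_smul, norm_smul, Real.norm_of_nonneg ha, Real.norm_of_nonneg hb] at h1
  have h2 : max (‖y + L (a • p + b • q)‖ - 1) 0 ≤
      a * max (‖y + L p‖ - 1) 0 + b * max (‖y + L q‖ - 1) 0 := max_le (by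
    nlinarith [mul_le_mul_of_nonneg_left (le_max_left (‖y + L p‖ - 1) 0) ha,
      mul_le_mul_of_nonneg_left (le_max_left (‖y + L q‖ - 1) 0) hb]) (by positivity)
  have h3 := mul_le_mul_of_nonneg_left h2 hM
  simp only [smul_eq_mul]
  have h4 : M * max (‖y‖ - 1) 0 = (a + b) * (M * max (‖y‖ - 1) 0) := by rw [hab, one_mul]
  nlinarith

theorem pen_use {F : StrongDual ℝ X} {y : X} {M : ℝ} (hM : 0 ≤ M)
    (h : ∀ u, F u ≤ M * (max (‖y + u‖ - 1) 0 - max (‖y‖ - 1) 0)) :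
    ‖F‖ ≤ F y ∧ (1 < ‖y‖ → M * ‖y‖ ≤ F y) := by
  have h1 : ∀ b, ‖b‖ ≤ 1 → F b - F y ≤ -(M * max (‖y‖ - 1) 0) := fun b hb => by
    simpa [max_eq_right (sub_nonpos.2 hb)] using h (b - y)
  have h2 : 0 ≤ M * max (‖y‖ - 1) 0 := by positivity
  refine ⟨ContinuousLinearMap.opNorm_le_of_unit_norm ?_ fun b hb => abs_le.2 ⟨?_, ?_⟩, fun hy => ?_⟩
  · have := h1 0 (by simp)
    rw [map_zero] at this
    linarith
  · have := h1 (-b) (by simp [hb])
    rw [map_neg] at this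
    linarith
  · linarith [h1 b hb.le]
  · have y0 : 0 < ‖y‖ := by linarith
    have := h1 (‖y‖⁻¹ • y) (by simp [norm_smul, y0.ne'])
    rw [max_eq_left (by linarith), map_smul, smul_eq_mul] at this
    have h3 := mul_le_mul_of_nonneg_left this y0.le
    rw [mul_sub, ← mul_assoc, mul_inv_cancel₀ y0.ne'] at h3
    nlinarith

theorem decomp [CompleteSpace X] (x : X) (f : StrongDual ℝ X) (hx : ‖x‖ = 1) (hf : ‖f‖ = 1)
    {k M : ℝ} (hk : 0 < k) (hM : 0 ≤ M) : ∃ (y : X) (F H G : StrongDual ℝ X), f = F + H + G ∧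
      ‖G‖ ≤ k ∧ k * ‖y - x‖ ≤ 1 - f x ∧ ‖F‖ ≤ F y ∧ (1 < ‖y‖ → 2 * ‖y‖ ≤ F y) ∧
      ‖H‖ ≤ H (y - x) ∧ (1 < ‖y - x‖ → M * ‖y - x‖ ≤ H (y - x)) ∧ (M = 0 → H = 0) := by
  have hB : ∀ v, f v - 2 * max (‖v‖ - 1) 0 - M * max (‖v - x‖ - 1) 0 ≤ 1 := fun v => by
    have h1 : f v ≤ ‖v‖ := (le_abs_self _).trans (by simpa [hf] using f.le_opNorm v)
    have h2 : 0 ≤ M * max (‖v - x‖ - 1) 0 := by positivity
    linarith [le_max_left (‖v‖ - 1) 0, le_max_right (‖v‖ - 1) 0]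
  obtain ⟨y, y1, y2⟩ := ekeland
    (fun v => f v - 2 * max (‖v‖ - 1) 0 - M * max (‖v - x‖ - 1) 0) (by fun_prop) hB x hk
  let p1 := LinearMap.fst ℝ X (X × X)
  let p2 := LinearMap.fst ℝ X X ∘ₗ LinearMap.snd ℝ X (X × X)
  obtain ⟨Λ, l1, l2⟩ := sandwich (fun p : X × X × X => 2 * (max (‖y + p.1‖ - 1) 0 -
      max (‖y‖ - 1) 0) + M * (max (‖y - x + p.2.1‖ - 1) 0 - max (‖y - x‖ - 1) 0) + k * ‖p.2.2‖)
    (by fun_prop) (((pen_convex p1 y zero_le_two).add (pen_convex p2 (y - x) hM)).add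
      ((convexOn_univ_norm.comp_linearMap
        (LinearMap.snd ℝ X X ∘ₗ LinearMap.snd ℝ X (X × X))).smul hk.le)) (by simp)
    (LinearMap.id.prod (LinearMap.id.prod LinearMap.id)) f.toLinearMap fun v => by
      have := y2 (y + v)
      rw [dist_eq_norm, add_sub_cancel_left, map_add, add_sub_right_comm y v x] at this
      change f v ≤ 2 * (max (‖y + v‖ - 1) 0 - _) + M * (max (‖y - x + v‖ - 1) 0 - _) + k * ‖v‖
      linarith
  let i1 := ContinuousLinearMap.inl ℝ X (X × X)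
  let i2 := ContinuousLinearMap.inr ℝ X (X × X) ∘L ContinuousLinearMap.inl ℝ X X
  let i3 := ContinuousLinearMap.inr ℝ X (X × X) ∘L ContinuousLinearMap.inr ℝ X X
  have a1 := pen_use (F := Λ ∘L i1) (y := y) zero_le_two fun u => by
    simpa [i1] using l2 (u, 0)
  have a0 : ∀ u, (Λ ∘L i2) u ≤ M * (max (‖y - x + u‖ - 1) 0 - max (‖y - x‖ - 1) 0) :=
    fun u => by simpa [i2] using l2 (0, u, 0)
  have a2 := pen_use hM a0
  have a3 : ∀ u, (Λ ∘L i3) u ≤ k * ‖u‖ := fun u => by simpa [i3] using l2 (0, 0, u)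
  refine ⟨y, Λ ∘L i1, Λ ∘L i2, Λ ∘L i3, ContinuousLinearMap.ext fun v => ?_,
    ContinuousLinearMap.opNorm_le_bound _ hk.le fun u => abs_le.2 ⟨?_, a3 u⟩, ?_, a1.1, a1.2,
    a2.1, a2.2, fun h => ContinuousLinearMap.ext fun v => le_antisymm ?_ ?_⟩
  · refine (l1 v).symm.trans ?_
    change _ = Λ _ + Λ _ + Λ _
    rw [← map_add, ← map_add]
    simp [i1, i2, i3]
  · have := a3 (-u)
    rw [map_neg, norm_neg] at this
    linarith
  · have := hB y
    rw [dist_eq_norm, hx, sub_self, sub_self, norm_zero] at y1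
    norm_num at y1
    linarith
  · simpa [h] using a0 v
  · simpa [h] using a0 (-v)

theorem normalize {F : StrongDual ℝ X} {y : X} (h0 : 0 < ‖F‖) (h1 : ‖F‖ ≤ F y) (h2 : ‖y‖ ≤ 1) :
    ∃ g : StrongDual ℝ X, ‖y‖ = 1 ∧ ‖g‖ = 1 ∧ g y = 1 ∧ ‖F - g‖ = |‖F‖ - 1| := by
  have a1 : F y ≤ ‖F‖ * ‖y‖ := (le_abs_self _).trans (F.le_opNorm y)
  have a2 : ‖y‖ = 1 := le_antisymm h2 (by nlinarith)
  have a3 : ‖‖F‖⁻¹ • F‖ = 1 := by simp [norm_smul, h0.ne']
  refine ⟨‖F‖⁻¹ • F, a2, a3, ?_, ?_⟩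
  · rw [a2, mul_one] at a1
    rw [ContinuousLinearMap.smul_apply, le_antisymm a1 h1, smul_eq_mul, inv_mul_cancel₀ h0.ne']
  · have : F - ‖F‖⁻¹ • F = (‖F‖ - 1) • ‖F‖⁻¹ • F := by
      ext v
      simp only [ContinuousLinearMap.sub_apply, ContinuousLinearMap.smul_apply, smul_eq_mul]
      field_simp
    rw [this, norm_smul, a3, mul_one, Real.norm_eq_abs]

end

theorem result (X : Type u) [NormedAddCommGroup X] [NormedSpace ℝ X] [CompleteSpace X]
    (ε : ℝ) (h0 : 0 < ε) (δ : ℝ) (hδ : min √(2 * ε) 1 < δ) (x : X) (f : StrongDual ℝ X)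
    (hx : ‖x‖ = 1) (hf : ‖f‖ = 1) (h : 1 - ε < f x) :
    ∃ (y : X) (g : StrongDual ℝ X), ‖y‖ = 1 ∧ ‖g‖ = 1 ∧ |g y| = 1 ∧ ‖x - y‖ < δ ∧ ‖f - g‖ < δ := by
  have bd : ∀ (F : StrongDual ℝ X) (v : X), -(‖F‖ * ‖v‖) ≤ F v ∧ F v ≤ ‖F‖ * ‖v‖ :=
    fun F v => abs_le.1 (F.le_opNorm v)
  rcases le_total √(2 * ε) 1 with c | c
  · rw [min_eq_left c] at hδ
    have s0 : 0 < √(2 * ε) := by positivity
    have s1 := Real.mul_self_sqrt (show 0 ≤ 2 * ε by positivity)
    obtain ⟨y, F, H, G, e, g1, y1, f1, f2, -, -, h3⟩ := decomp x f hx hf (half_pos s0) le_rfl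
    rw [h3 rfl, add_zero] at e
    have a1 : |‖F‖ - 1| ≤ √(2 * ε) / 2 := by
      have := abs_norm_sub_norm_le F f
      rw [hf, e, sub_add_cancel_left, norm_neg] at this
      exact this.trans g1
    have a2 := abs_le.1 a1
    obtain ⟨g, b1, b2, b3, b4⟩ := normalize (by linarith [a2.1]) f1 (not_lt.1 fun hy => by
      nlinarith [f2 hy, (bd F y).2, a2.2])
    refine ⟨y, g, b1, b2, by simp [b3], ?_, ?_⟩
    · rw [norm_sub_rev]
      nlinarith
    · rw [e, add_sub_right_comm]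
      linarith [norm_add_le (F - g) G]
  · rw [min_eq_right c] at hδ
    obtain ⟨k, k0, k1, k2⟩ : ∃ k : ℝ, 0 < k ∧ 1 + 3 * k < δ ∧ k < 1 :=
      ⟨min (δ - 1) 1 / 4, by have := sub_pos.2 hδ; positivity, by linarith [min_le_left (δ - 1) 1],
        by linarith [min_le_right (δ - 1) 1]⟩
    obtain ⟨y, F, H, G, e, g1, -, f1, f2, h1, h2, -⟩ := decomp x f hx hf k0 zero_le_two
    have ev : ∀ v, F v + H v ≤ (1 + k) * ‖v‖ := fun v => by
      have a1 : f v = F v + H v + G v := by rw [e]; rfl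
      have a2 := (bd f v).2
      rw [hf] at a2
      nlinarith [(bd G v).1, norm_nonneg v]
    have p1 : 0 ≤ H y := by
      have := (bd H x).1
      rw [map_sub] at h1
      rw [hx] at this
      linarith
    have p2 : 0 ≤ F (y - x) := by
      have := (bd F x).2
      rw [hx] at this
      rw [map_sub]
      linarith
    have q1 : ‖y‖ ≤ 1 := not_lt.1 fun hy => by nlinarith [f2 hy, ev y]
    have q2 : ‖y - x‖ ≤ 1 := not_lt.1 fun hy => by nlinarith [h2 hy, ev (y - x)]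
    have r1 : ‖F‖ ≤ 1 + k := by nlinarith [ev y]
    have r2 : ‖H‖ ≤ 1 + k := by nlinarith [ev (y - x)]
    have r3 : 1 ≤ ‖F‖ + ‖H‖ + k := by
      rw [← hf, e]
      linarith [norm_add_le (F + H) G, norm_add_le F H]
    rcases le_total ‖H‖ ‖F‖ with d | d
    · obtain ⟨g, b1, b2, b3, b4⟩ := normalize (by linarith) f1 q1
      refine ⟨y, g, b1, b2, by simp [b3], by rw [norm_sub_rev]; linarith, ?_⟩
      have : f - g = F - g + H + G := by rw [e]; abel
      rw [this]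
      have := norm_add₃_le (a := F - g) (b := H) (c := G)
      rcases abs_cases (‖F‖ - 1) with t | t <;> linarith
    · obtain ⟨g, b1, b2, b3, b4⟩ := normalize (by linarith) h1 q2
      refine ⟨-(y - x), g, by rwa [norm_neg], b2, by simp only [map_neg, b3, abs_neg, abs_one],
        by simpa using q1.trans_lt hδ, ?_⟩
      have : f - g = H - g + F + G := by rw [e]; abel
      rw [this]
      have := norm_add₃_le (a := H - g) (b := F) (c := G)
      rcases abs_cases (‖H‖ - 1) with t | t <;> linarith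

end Pool.Agent.Results.MP_7e7193_an.Main
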